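import Pool.Agent.Helper7.AC.Defs

/-! MP_29fd35_lc, packet P5: normal form for functions recursive in a set. -/

set_option autoImplicit false

namespace Pool.Agent.Helper3.AC

open Nat.Partrec (Code)
open Denumerable Encodable
open Pool.Agent.Helper7.AC

theorem pre_length (X : ℕ → Bool) (k : ℕ) : (pre X k).length = k := by
  simp [pre]

theorem pre_take (X : ℕ → Bool) {j k : ℕ} (h : j ≤ k) : (pre X k).take j = pre X j := by
  simp [pre, ← List.map_take, List.take_range, Nat.min_eq_left h]

theorem pre_prefix (X : ℕ → Bool) {j k : ℕ} (h : j ≤ k) : pre X j <+: pre X k := by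
  rw [← pre_take X h]; exact List.take_prefix _ _

/-- `F` represents `φ` by finite approximations along `X`. -/
structure Rep (X : ℕ → Bool) (φ : ℕ →. ℕ) (F : List Bool → ℕ → Option ℕ) : Prop where
  comp : Computable₂ F
  mono : ∀ σ τ n m, σ <+: τ → F σ n = some m → F τ n = some m
  spec : ∀ n m, m ∈ φ n ↔ ∃ k, F (pre X k) n = some m

theorem Rep.lift {X : ℕ → Bool} {φ : ℕ →. ℕ} {F : List Bool → ℕ → Option ℕ} (h : Rep X φ F)
    {j k n m : ℕ} (hjk : j ≤ k) (hj : F (pre X j) n = some m) : F (pre X k) n = some m :=
  h.mono _ _ _ _ (pre_prefix X hjk) hj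

theorem Rep.const {X : ℕ → Bool} {f : ℕ → ℕ} (hf : Computable f) :
    Rep X (f : ℕ →. ℕ) (fun _ n => some (f n)) where
  comp := (Computable.option_some.comp (hf.comp Computable.snd)).to₂
  mono := by intro σ τ n m _ h; exact h
  spec := by
    intro n m
    simp [eq_comm]

/-- zero test -/
def zt (n v : ℕ) : Option ℕ := if v = 0 then some n else none

theorem zt_computable : Computable₂ zt := by
  have h : Primrec₂ zt := by
    show Primrec fun p : ℕ × ℕ => if p.2 = 0 then some p.1 else none
    exact Primrec.ite (Primrec.eq.comp Primrec.snd (Primrec.const 0))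
      (Primrec.option_some.comp Primrec.fst) (Primrec.const none)
  exact h.to_comp

/-- One step of the bounded search. -/
def stp (n : ℕ) (w : Option ℕ) (o : Option ℕ) : Option (Option ℕ) :=
  Option.casesOn o (w.map (zt n)) (fun r => some (some r))

theorem stp_computable :
    Computable fun q : (ℕ × Option ℕ) × Option ℕ => stp q.1.1 q.1.2 q.2 := by
  have h1 : Computable fun q : (ℕ × Option ℕ) × Option ℕ => q.1.2.map (zt q.1.1) := by
    refine Computable.option_map (g := fun (q : (ℕ × Option ℕ) × Option ℕ) v => zt q.1.1 v)
      (Computable.snd.comp Computable.fst) ?_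
    exact zt_computable.comp (Computable.fst.comp (Computable.fst.comp
      (Computable.fst : Computable (Prod.fst : ((ℕ × Option ℕ) × Option ℕ) × ℕ → _))))
      (Computable.snd)
  have h2 : Computable₂ fun (q : (ℕ × Option ℕ) × Option ℕ) (r : ℕ) =>
      (some (some r) : Option (Option ℕ)) :=
    Computable.option_some.comp (Computable.option_some.comp Computable.snd)
  exact Computable.option_casesOn (o := fun q : (ℕ × Option ℕ) × Option ℕ => q.2)
    Computable.snd h1 h2

/-- The bounded search. -/
def srch (G : ℕ → Option ℕ) : ℕ → Option (Option ℕ)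
  | 0 => some none
  | n + 1 => (srch G n).bind (stp n (G n))

theorem srch_spec (G : ℕ → Option ℕ) (N : ℕ) :
    (srch G N = some none ↔ ∀ m < N, ∃ k, G m = some (k + 1)) ∧
    (∀ r, srch G N = some (some r) ↔
      r < N ∧ G r = some 0 ∧ ∀ m < r, ∃ k, G m = some (k + 1)) := by
  induction N with
  | zero => simp [srch]
  | succ N ih =>
    obtain ⟨ih1, ih2⟩ := ih
    rcases hs : srch G N with _ | (_ | r)
    · -- undefined
      have h1 : ¬ ∀ m < N, ∃ k, G m = some (k + 1) := fun h => by
        rw [← ih1, hs] at h; cases h
      constructor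
      · simp only [srch, hs, Option.bind_none, reduceCtorEq, false_iff]
        intro h; exact h1 fun m hm => h m (by omega)
      · intro r
        simp only [srch, hs, Option.bind_none, reduceCtorEq, false_iff, not_and]
        intro hr h0 hm
        rcases Nat.lt_succ_iff_lt_or_eq.mp hr with h | h
        · have := (ih2 r).2 ⟨h, h0, hm⟩
          rw [hs] at this; cases this
        · subst h; exact h1 hm
    · -- still searching
      have h1 : ∀ m < N, ∃ k, G m = some (k + 1) := ih1.1 hs
      rcases hG : G N with _ | (_ | v)
      · constructor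
        · simp only [srch, stp, hs, hG, Option.bind_some, Option.map_none, reduceCtorEq, false_iff]
          intro h; obtain ⟨k, hk⟩ := h N (by omega); rw [hG] at hk; cases hk
        · intro r
          simp only [srch, stp, hs, hG, Option.bind_some, Option.map_none, reduceCtorEq, false_iff,
            not_and]
          intro hr h0 hm
          rcases Nat.lt_succ_iff_lt_or_eq.mp hr with h | h
          · obtain ⟨k, hk⟩ := h1 r h; rw [h0] at hk; cases hk
          · subst h; rw [hG] at h0; cases h0
      · constructor
        · simp only [srch, stp, zt, hs, hG, Option.bind_some, Option.map_some]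
          constructor
          · intro h; cases h
          · intro h; obtain ⟨k, hk⟩ := h N (by omega); rw [hG] at hk; cases hk
        · intro r
          simp only [srch, stp, zt, hs, hG, Option.bind_some, Option.map_some]
          constructor
          · intro h
            have : N = r := by simpa using h
            subst this
            exact ⟨by omega, hG, h1⟩
          · rintro ⟨hr, h0, hm⟩
            rcases Nat.lt_succ_iff_lt_or_eq.mp hr with h | h
            · obtain ⟨k, hk⟩ := h1 r h; rw [h0] at hk; cases hk
            · subst h; rfl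
      · constructor
        · simp only [srch, stp, zt, hs, hG, Option.bind_some, Option.map_some]
          constructor
          · intro _ m hm
            rcases Nat.lt_succ_iff_lt_or_eq.mp hm with h | h
            · exact h1 m h
            · subst h; exact ⟨v, hG⟩
          · intro _; trivial
        · intro r
          simp only [srch, stp, zt, hs, hG, Option.bind_some, Option.map_some]
          constructor
          · intro h; simp at h
          · rintro ⟨hr, h0, hm⟩
            rcases Nat.lt_succ_iff_lt_or_eq.mp hr with h | h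
            · obtain ⟨k, hk⟩ := h1 r h; rw [h0] at hk; cases hk
            · subst h; rw [hG] at h0; cases h0
    · -- found
      obtain ⟨hr, h0, hm⟩ := (ih2 r).1 hs
      constructor
      · simp only [srch, stp, hs, Option.bind_some]
        constructor
        · intro h; simp at h
        · intro h; obtain ⟨k, hk⟩ := h r (by omega); rw [h0] at hk; cases hk
      · intro r'
        simp only [srch, stp, hs, Option.bind_some]
        constructor
        · intro h
          have : r = r' := by simpa using h
          subst this
          exact ⟨by omega, h0, hm⟩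
        · rintro ⟨hr', h0', hm'⟩
          have : r = r' := by
            rcases lt_trichotomy r r' with h | h | h
            · obtain ⟨k, hk⟩ := hm' r h; rw [h0] at hk; cases hk
            · exact h
            · obtain ⟨k, hk⟩ := hm r' h; rw [h0'] at hk; cases hk
          subst this; rfl

theorem srch_computable {F : List Bool → ℕ → Option ℕ} (hF : Computable₂ F) :
    Computable fun q : List Bool × ℕ => srch (fun n => F q.1 (Nat.pair q.2 n)) q.1.length := by
  have hh : Computable₂ fun (q : List Bool × ℕ) (r : ℕ × Option (Option ℕ)) =>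
      r.2.bind (stp r.1 (F q.1 (Nat.pair q.2 r.1))) := by
    have h1 : Computable fun s : ((List Bool × ℕ) × (ℕ × Option (Option ℕ))) × Option ℕ =>
        F s.1.1.1 (Nat.pair s.1.1.2 s.1.2.1) := by
      refine hF.comp (Computable.fst.comp (Computable.fst.comp Computable.fst)) ?_
      exact Primrec₂.natPair.to_comp.comp
        (Computable.snd.comp (Computable.fst.comp Computable.fst))
        (Computable.fst.comp (Computable.snd.comp Computable.fst))
    have h3 : Computable fun s : ((List Bool × ℕ) × (ℕ × Option (Option ℕ))) × Option ℕ =>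
        s.1.2.1 := Computable.fst.comp (Computable.snd.comp Computable.fst)
    have h4 : Computable fun s : ((List Bool × ℕ) × (ℕ × Option (Option ℕ))) × Option ℕ =>
        (((s.1.2.1, F s.1.1.1 (Nat.pair s.1.1.2 s.1.2.1)), s.2) : (ℕ × Option ℕ) × Option ℕ) :=
      Computable.pair (Computable.pair h3 h1) Computable.snd
    have h2 : Computable₂ fun (s : (List Bool × ℕ) × (ℕ × Option (Option ℕ))) (o : Option ℕ) =>
        stp s.2.1 (F s.1.1 (Nat.pair s.1.2 s.2.1)) o := by
      have := Computable.comp (f := fun q : (ℕ × Option ℕ) × Option ℕ => stp q.1.1 q.1.2 q.2)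
        (g := fun s : ((List Bool × ℕ) × (ℕ × Option (Option ℕ))) × Option ℕ =>
          (((s.1.2.1, F s.1.1.1 (Nat.pair s.1.1.2 s.1.2.1)), s.2) : (ℕ × Option ℕ) × Option ℕ))
        stp_computable h4
      exact this
    exact Computable.option_bind
      (f := fun s : (List Bool × ℕ) × (ℕ × Option (Option ℕ)) => s.2.2)
      (Computable.snd.comp Computable.snd) h2
  have hR := Computable.nat_rec (f := fun q : List Bool × ℕ => q.1.length)
      (g := fun q : List Bool × ℕ => (some none : Option (Option ℕ)))
      (Computable.list_length.comp Computable.fst) (Computable.const _) hh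
  refine hR.of_eq ?_
  intro q
  generalize q.1.length = N
  induction N with
  | zero => rfl
  | succ N ih =>
    change Option.bind _ _ = Option.bind _ _
    rw [ih]

theorem exists_rep {X : ℕ → Bool} {φ : ℕ →. ℕ} (h : Nat.RecursiveIn {chi X} φ) :
    ∃ F : List Bool → ℕ → Option ℕ, Rep X φ F := by
  induction h with
  | zero => exact ⟨_, Rep.const (f := fun _ => 0) (Computable.const 0)⟩
  | succ => exact ⟨_, Rep.const (f := Nat.succ) Computable.succ⟩
  | left => exact ⟨_, Rep.const (f := fun n => (Nat.unpair n).1)
      (Computable.fst.comp Computable.unpair)⟩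
  | right => exact ⟨_, Rep.const (f := fun n => (Nat.unpair n).2)
      (Computable.snd.comp Computable.unpair)⟩
  | oracle g hg =>
    obtain rfl : g = chi X := hg
    refine ⟨fun σ n => (σ[n]?).map Bool.toNat, ?_, ?_, ?_⟩
    · have h1 : Computable₂ fun (σ : List Bool) (n : ℕ) => σ[n]? := Computable.list_getElem?
      have h2 : Computable Bool.toNat := by
        refine (Computable.cond Computable.id (Computable.const 1) (Computable.const 0)).of_eq ?_
        intro b; cases b <;> rfl
      exact (Computable.option_map h1 (h2.comp Computable.snd).to₂).to₂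
    · intro σ τ n m hp hs
      obtain ⟨t, rfl⟩ := hp
      rw [Option.map_eq_some_iff] at hs ⊢
      obtain ⟨b, hb, rfl⟩ := hs
      refine ⟨b, ?_, rfl⟩
      have hlt : n < σ.length := by
        by_contra hge
        rw [List.getElem?_eq_none (by omega)] at hb; cases hb
      rw [List.getElem?_append_left hlt]; exact hb
    · intro n m
      constructor
      · intro hm
        have hm' : m = (X n).toNat := by simpa [chi] using hm
        refine ⟨n + 1, ?_⟩
        simp [pre, hm']
      · rintro ⟨k, hk⟩
        rw [Option.map_eq_some_iff] at hk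
        obtain ⟨b, hb, rfl⟩ := hk
        have : b = X n := by
          have hlt : n < (pre X k).length := by
            by_contra hge
            rw [List.getElem?_eq_none (by omega)] at hb; cases hb
          rw [List.getElem?_eq_getElem hlt] at hb
          simpa [pre, eq_comm] using hb
        subst this
        simp [chi]
  | pair hf hh ihf ihh =>
    obtain ⟨F, hF⟩ := ihf
    obtain ⟨H, hH⟩ := ihh
    refine ⟨fun σ n => (F σ n).bind fun a => (H σ n).map fun b => Nat.pair a b, ?_, ?_, ?_⟩
    · show Computable fun q : List Bool × ℕ =>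
        (F q.1 q.2).bind fun a => (H q.1 q.2).map fun b => Nat.pair a b
      refine Computable.option_bind (show Computable fun q : List Bool × ℕ => F q.1 q.2
        from hF.comp) ?_
      show Computable fun r : (List Bool × ℕ) × ℕ =>
        (H r.1.1 r.1.2).map fun b => Nat.pair r.2 b
      refine Computable.option_map (hH.comp.comp (Computable.fst.comp Computable.fst)
        (Computable.snd.comp Computable.fst)) ?_
      show Computable fun r : ((List Bool × ℕ) × ℕ) × ℕ => Nat.pair r.1.2 r.2
      exact Primrec₂.natPair.to_comp.comp (Computable.snd.comp Computable.fst)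
        Computable.snd
    · intro σ τ n m hp hs
      simp only [Option.bind_eq_some_iff, Option.map_eq_some_iff] at hs ⊢
      obtain ⟨a, ha, b, hb, rfl⟩ := hs
      exact ⟨a, hF.mono _ _ _ _ hp ha, b, hH.mono _ _ _ _ hp hb, rfl⟩
    · intro n m
      have e : ∀ (a b : Part ℕ), (Nat.pair <$> a <*> b) =
          a.bind fun x => b.map fun y => Nat.pair x y := by
        intro a b
        simp [Seq.seq]
      rw [e]
      simp only [Part.mem_bind_iff]
      constructor
      · rintro ⟨a, ha, hm⟩
        obtain ⟨b, hb, rfl⟩ := (Part.mem_map_iff _).1 hm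
        obtain ⟨k, hk⟩ := (hF.spec _ _).1 ha
        obtain ⟨l, hl⟩ := (hH.spec _ _).1 hb
        refine ⟨max k l, ?_⟩
        rw [hF.lift (le_max_left k l) hk, hH.lift (le_max_right k l) hl]; rfl
      · rintro ⟨k, hk⟩
        simp only [Option.bind_eq_some_iff, Option.map_eq_some_iff] at hk
        obtain ⟨a, ha, b, hb, rfl⟩ := hk
        exact ⟨a, (hF.spec _ _).2 ⟨k, ha⟩, (Part.mem_map_iff _).2 ⟨b, (hH.spec _ _).2 ⟨k, hb⟩, rfl⟩⟩
  | @comp f' h' hf hh ihf ihh =>
    obtain ⟨F, hF⟩ := ihf
    obtain ⟨H, hH⟩ := ihh
    refine ⟨fun σ n => (H σ n).bind (F σ), ?_, ?_, ?_⟩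
    · show Computable fun q : List Bool × ℕ => (H q.1 q.2).bind (F q.1)
      refine Computable.option_bind (show Computable fun q : List Bool × ℕ => H q.1 q.2
        from hH.comp) ?_
      show Computable fun r : (List Bool × ℕ) × ℕ => F r.1.1 r.2
      exact hF.comp.comp (Computable.fst.comp Computable.fst) Computable.snd
    · intro σ τ n m hp hs
      simp only [Option.bind_eq_some_iff] at hs ⊢
      obtain ⟨a, ha, hb⟩ := hs
      exact ⟨a, hH.mono _ _ _ _ hp ha, hF.mono _ _ _ _ hp hb⟩
    · intro n m
      refine Iff.trans (Part.mem_bind_iff (f := (h' n : Part ℕ)) (g := f')) ?_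
      constructor
      · rintro ⟨a, ha, hm⟩
        obtain ⟨k, hk⟩ := (hH.spec _ _).1 ha
        obtain ⟨l, hl⟩ := (hF.spec _ _).1 hm
        refine ⟨max k l, ?_⟩
        rw [hH.lift (le_max_left k l) hk]
        exact hF.lift (le_max_right k l) hl
      · rintro ⟨k, hk⟩
        simp only [Option.bind_eq_some_iff] at hk
        obtain ⟨a, ha, hb⟩ := hk
        exact ⟨a, (hH.spec _ _).2 ⟨k, ha⟩, (hF.spec _ _).2 ⟨k, hb⟩⟩
  | prec hf hh ihf ihh =>
    obtain ⟨F, hF⟩ := ihf
    obtain ⟨H, hH⟩ := ihh
    let G : List Bool → ℕ → ℕ → Option ℕ := fun σ a n =>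
      Nat.rec (F σ a) (fun y IH => IH.bind fun i => H σ (Nat.pair a (Nat.pair y i))) n
    have hmono : ∀ σ τ a n m, σ <+: τ → G σ a n = some m → G τ a n = some m := by
      intro σ τ a n
      induction n with
      | zero => intro m hp hs; exact hF.mono _ _ _ _ hp hs
      | succ y ih =>
        intro m hp hs
        change (G σ a y).bind _ = some m at hs
        change (G τ a y).bind _ = some m
        rw [Option.bind_eq_some_iff] at hs ⊢
        obtain ⟨i, hi, hm⟩ := hs
        exact ⟨i, ih i hp hi, hH.mono _ _ _ _ hp hm⟩
    refine ⟨fun σ p => G σ (Nat.unpair p).1 (Nat.unpair p).2, ?_, ?_, ?_⟩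
    · show Computable fun q : List Bool × ℕ => G q.1 (Nat.unpair q.2).1 (Nat.unpair q.2).2
      refine Computable.nat_rec (f := fun q : List Bool × ℕ => (Nat.unpair q.2).2)
        (g := fun q : List Bool × ℕ => F q.1 (Nat.unpair q.2).1)
        (h := fun (q : List Bool × ℕ) (r : ℕ × Option ℕ) =>
          r.2.bind fun i => H q.1 (Nat.pair (Nat.unpair q.2).1 (Nat.pair r.1 i))) ?_ ?_ ?_
      · exact Computable.snd.comp (Computable.unpair.comp Computable.snd)
      · exact hF.comp.comp Computable.fst
          (Computable.fst.comp (Computable.unpair.comp Computable.snd))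
      · show Computable fun s : (List Bool × ℕ) × (ℕ × Option ℕ) =>
          s.2.2.bind fun i => H s.1.1 (Nat.pair (Nat.unpair s.1.2).1 (Nat.pair s.2.1 i))
        refine Computable.option_bind (Computable.snd.comp Computable.snd) ?_
        show Computable fun s : ((List Bool × ℕ) × (ℕ × Option ℕ)) × ℕ =>
          H s.1.1.1 (Nat.pair (Nat.unpair s.1.1.2).1 (Nat.pair s.1.2.1 s.2))
        refine hH.comp.comp (Computable.fst.comp (Computable.fst.comp Computable.fst)) ?_
        refine Primrec₂.natPair.to_comp.comp ?_ ?_
        · exact Computable.fst.comp (Computable.unpair.comp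
            (Computable.snd.comp (Computable.fst.comp Computable.fst)))
        · exact Primrec₂.natPair.to_comp.comp
            (Computable.fst.comp (Computable.snd.comp Computable.fst)) Computable.snd
    · intro σ τ n m hp hs
      exact hmono σ τ _ _ m hp hs
    · intro p m
      rcases hun : Nat.unpair p with ⟨a, n⟩
      simp only
      clear hun
      induction n generalizing m with
      | zero => exact hF.spec _ _
      | succ y ih =>
        change m ∈ (Part.bind _ _ : Part ℕ) ↔ _
        rw [Part.mem_bind_iff]
        constructor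
        · rintro ⟨i, hi, hm⟩
          obtain ⟨k, hk⟩ := (ih i).1 hi
          obtain ⟨l, hl⟩ := (hH.spec _ _).1 hm
          refine ⟨max k l, ?_⟩
          change (G _ a y).bind _ = some m
          rw [Option.bind_eq_some_iff]
          exact ⟨i, hmono _ _ _ _ _ (pre_prefix X (le_max_left k l)) hk,
            hH.lift (le_max_right k l) hl⟩
        · rintro ⟨k, hk⟩
          change (G _ a y).bind _ = some m at hk
          rw [Option.bind_eq_some_iff] at hk
          obtain ⟨i, hi, hm⟩ := hk
          exact ⟨i, (ih i).2 ⟨k, hi⟩, (hH.spec _ _).2 ⟨k, hm⟩⟩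
  | @rfind f' hf ihf =>
    obtain ⟨F, hF⟩ := ihf
    have key : ∀ σ a r, (srch (fun n => F σ (Nat.pair a n)) σ.length).bind id = some r ↔
        (r < σ.length ∧ F σ (Nat.pair a r) = some 0 ∧
          ∀ m < r, ∃ k, F σ (Nat.pair a m) = some (k + 1)) := by
      intro σ a r
      rw [← (srch_spec (fun n => F σ (Nat.pair a n)) σ.length).2 r, Option.bind_eq_some_iff]
      simp
    refine ⟨fun σ a => (srch (fun n => F σ (Nat.pair a n)) σ.length).bind id, ?_, ?_, ?_⟩
    · show Computable fun q : List Bool × ℕ =>
        (srch (fun n => F q.1 (Nat.pair q.2 n)) q.1.length).bind id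
      exact Computable.option_bind (srch_computable hF.comp) (g := fun _ o => o) Computable.snd
    · intro σ τ n m hp hs
      simp only [key] at hs ⊢
      obtain ⟨h1, h2, h3⟩ := hs
      refine ⟨lt_of_lt_of_le h1 hp.length_le, hF.mono _ _ _ _ hp h2, fun j hj => ?_⟩
      obtain ⟨k, hk⟩ := h3 j hj
      exact ⟨k, hF.mono _ _ _ _ hp hk⟩
    · intro a r
      have hkey : (∃ k, (srch (fun n => F (pre X k) (Nat.pair a n)) (pre X k).length).bind id
          = some r) ↔ ∃ k, (r < k ∧ F (pre X k) (Nat.pair a r) = some 0 ∧
          ∀ m < r, ∃ v, F (pre X k) (Nat.pair a m) = some (v + 1)) := by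
        refine exists_congr fun k => ?_
        rw [key, pre_length]
      refine Iff.trans ?_ hkey.symm
      refine Iff.trans (b := (true ∈ (f' (Nat.pair a r) : Part ℕ).map (fun m : ℕ => decide (m = 0)) ∧
        ∀ {m : ℕ}, m < r → false ∈ (f' (Nat.pair a m) : Part ℕ).map (fun m : ℕ => decide (m = 0))))
        Nat.mem_rfind ?_
      constructor
      · rintro ⟨h0, hlt⟩
        have h0' : (0 : ℕ) ∈ (f' (Nat.pair a r) : Part ℕ) := by
          have := (Part.mem_map_iff _).1 h0
          obtain ⟨v, hv, hv0⟩ := this
          have : v = 0 := by simpa using hv0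
          subst this
          exact hv
        obtain ⟨k0, hk0⟩ := (hF.spec _ _).1 h0'
        have hlt' : ∀ m < r, ∃ k, ∃ v, F (pre X k) (Nat.pair a m) = some (v + 1) := by
          intro m hm
          have := (Part.mem_map_iff _).1 (hlt hm)
          obtain ⟨v, hv, hv0⟩ := this
          have hne : v ≠ 0 := by simpa using hv0
          obtain ⟨w, rfl⟩ := Nat.exists_eq_succ_of_ne_zero hne
          obtain ⟨k, hk⟩ := (hF.spec _ _).1 hv
          exact ⟨k, w, hk⟩
        choose! kk hkk using hlt'
        refine ⟨max (max (r + 1) k0) ((Finset.range r).sup kk), ?_, ?_, ?_⟩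
        · have : r + 1 ≤ max (max (r + 1) k0) ((Finset.range r).sup kk) := by
            exact le_trans (le_max_left _ _) (le_max_left _ _)
          omega
        · exact hF.lift (le_trans (le_max_right _ _) (le_max_left _ _)) hk0
        · intro m hm
          obtain ⟨v, hv⟩ := hkk m hm
          refine ⟨v, hF.lift (le_trans ?_ (le_max_right _ _)) hv⟩
          exact Finset.le_sup (f := kk) (Finset.mem_range.2 hm)
      · rintro ⟨k, h1, h2, h3⟩
        refine ⟨(Part.mem_map_iff _).2 ⟨0, (hF.spec _ _).2 ⟨k, h2⟩, by simp⟩, ?_⟩
        intro m hm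
        obtain ⟨v, hv⟩ := h3 m hm
        exact (Part.mem_map_iff _).2 ⟨v + 1, (hF.spec _ _).2 ⟨k, hv⟩, by simp⟩

theorem nf {X : ℕ → Bool} {φ : ℕ →. ℕ} (h : Nat.RecursiveIn {chi X} φ) :
    ∃ c : Code, ∀ n m, (m ∈ φ n ↔ ∃ k, V c (pre X k) n m) := by
  obtain ⟨F, hF⟩ := exists_rep h
  have hp : Partrec fun q : List Bool × ℕ => (F q.1 q.2 : Part ℕ) :=
    Computable.ofOption (show Computable fun q : List Bool × ℕ => F q.1 q.2 from hF.comp)
  obtain ⟨c, hc⟩ := Code.exists_code.1 hp
  have hval : ∀ σ n m, m ∈ Code.eval c (Nat.pair (encode σ) n) ↔ F σ n = some m := by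
    intro σ n m
    rw [hc]
    have : (decode (α := List Bool × ℕ) (Nat.pair (encode σ) n)) = some (σ, n) := by
      have := encodek (σ, n)
      rwa [Encodable.encode_prod_val, Encodable.encode_nat] at this
    simp [this]
  refine ⟨c, fun n m => ?_⟩
  rw [hF.spec]
  constructor
  · rintro ⟨k, hk⟩
    obtain ⟨t, ht⟩ := Code.evaln_complete.1 ((hval _ _ _).2 hk)
    refine ⟨max k t, k, ?_, ?_⟩
    · rw [pre_length]; exact le_max_left _ _
    · rw [pre_length, pre_take X (le_max_left _ _)]
      exact Code.evaln_mono (le_max_right _ _) ht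
  · rintro ⟨K, k, hkK, hk⟩
    rw [pre_length] at hkK
    rw [pre_length, pre_take X hkK] at hk
    exact ⟨k, (hval _ _ _).1 (Code.evaln_sound hk)⟩

end Pool.Agent.Helper3.AC
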