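import Pool.Agent.Helper40.AC.Stmts

/-!
# Local structure of the kernel of a presentation (packet P16)
-/

set_option autoImplicit false

namespace Pool.Agent.Helper3.AC

open Pool.Agent.Helper40.AC

section
variable {P : Type} [CommRing P]

/-- trace of an endomorphism of a product given by blocks -/
theorem trace_block {M N : Type} [AddCommGroup M] [Module P M] [AddCommGroup N] [Module P N]
    [Module.Free P M] [Module.Finite P M] [Module.Free P N] [Module.Finite P N]
    (A : M →ₗ[P] M) (B : N →ₗ[P] M) (C : M →ₗ[P] N) (D : N →ₗ[P] N) :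
    LinearMap.trace P (M × N)
      (LinearMap.inl P M N ∘ₗ A ∘ₗ LinearMap.fst P M N + LinearMap.inl P M N ∘ₗ B ∘ₗ LinearMap.snd P M N
        + LinearMap.inr P M N ∘ₗ C ∘ₗ LinearMap.fst P M N
        + LinearMap.inr P M N ∘ₗ D ∘ₗ LinearMap.snd P M N)
      = LinearMap.trace P M A + LinearMap.trace P N D := by
  simp only [map_add]
  rw [LinearMap.trace_comp_comm' (A ∘ₗ LinearMap.fst P M N) (LinearMap.inl P M N),
    LinearMap.trace_comp_comm' (B ∘ₗ LinearMap.snd P M N) (LinearMap.inl P M N),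
    LinearMap.trace_comp_comm' (C ∘ₗ LinearMap.fst P M N) (LinearMap.inr P M N),
    LinearMap.trace_comp_comm' (D ∘ₗ LinearMap.snd P M N) (LinearMap.inr P M N)]
  have h1 : (A ∘ₗ LinearMap.fst P M N) ∘ₗ LinearMap.inl P M N = A := by ext x; simp
  have h2 : (B ∘ₗ LinearMap.snd P M N) ∘ₗ LinearMap.inl P M N = 0 := by ext x; simp
  have h3 : (C ∘ₗ LinearMap.fst P M N) ∘ₗ LinearMap.inr P M N = 0 := by ext x; simp
  have h4 : (D ∘ₗ LinearMap.snd P M N) ∘ₗ LinearMap.inr P M N = D := by ext x; simp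
  rw [h1, h2, h3, h4]
  simp

end

/-- packet P16 -/
theorem fact_ok : S_FACT := by
  intro P _ _ _ J F₁ F₂ e hF₁ hF₂ hF₁0 hJ m π hπ
  classical
  obtain ⟨G₁, G₂, g, hrel, hg1, hg2⟩ := UniqueFactorizationMonoid.exists_reduced_factors F₁ hF₁0 F₂
  have hg0 : g ≠ 0 := by
    rintro rfl
    exact hF₁0 (by rw [← hg1, zero_mul])
  have hG10 : G₁ ≠ 0 := by
    rintro rfl
    exact hF₁0 (by rw [← hg1, mul_zero])
  -- the map T
  let T : (Fin 2 → P) →ₗ[P] J :=
    (LinearMap.proj (R := P) (φ := fun _ : Fin 2 => P) 0).smulRight (⟨F₁, hF₁⟩ : J) +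
      (LinearMap.proj (R := P) (φ := fun _ : Fin 2 => P) 1).smulRight (⟨F₂, hF₂⟩ : J)
  have hT : ∀ v : Fin 2 → P, ((T v : J) : P) = v 0 * F₁ + v 1 * F₂ := by
    intro v
    simp [T]
  let gam : Fin 2 → P := ![G₂, -G₁]
  let ι : P →ₗ[P] (Fin 2 → P) := LinearMap.toSpanSingleton P (Fin 2 → P) gam
  have hι : ∀ c : P, ι c = c • gam := fun c => LinearMap.toSpanSingleton_apply _ _ _ c
  have hιinj : Function.Injective ι := by
    intro c d hcd
    rw [hι, hι] at hcd
    have h1 := congrFun hcd 1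
    simp [gam] at h1
    rcases h1 with h1 | h1
    · exact h1
    · exact absurd h1 hG10
  have hTgam : T gam = 0 := by
    apply Subtype.ext
    rw [hT]
    simp only [gam, Matrix.cons_val_zero, Matrix.cons_val_one]
    rw [← hg1, ← hg2]
    simp
    ring
  have hker : ∀ v : Fin 2 → P, T v = 0 → v ∈ LinearMap.range ι := by
    intro v hv
    have h1 : v 0 * F₁ + v 1 * F₂ = 0 := by
      rw [← hT v, hv]; rfl
    rw [← hg1, ← hg2] at h1
    have h2 : v 0 * G₁ + v 1 * G₂ = 0 := by
      have : g * (v 0 * G₁ + v 1 * G₂) = 0 := by linear_combination h1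
      exact (mul_eq_zero.mp this).resolve_left hg0
    have h3 : G₁ ∣ v 1 * G₂ := ⟨-v 0, by linear_combination h2⟩
    have h4 : G₁ ∣ v 1 := hrel.dvd_of_dvd_mul_right h3
    obtain ⟨c, hc⟩ := h4
    refine ⟨-c, ?_⟩
    rw [hι]
    have h5 : v 0 = -c * G₂ := by
      have : G₁ * (v 0 + c * G₂) = 0 := by
        rw [hc] at h2
        linear_combination h2
      have := (mul_eq_zero.mp this).resolve_left hG10
      linear_combination this
    funext i
    fin_cases i
    · simp [gam, h5]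
    · simp only [gam]
      simp [hc]
      ring
  -- lifts
  obtain ⟨al, hal⟩ := Module.projective_lifting_property π T hπ
  have hal' : ∀ v, π (al v) = T v := fun v => LinearMap.congr_fun hal v
  have hrange : ∀ y : Fin m → P, (e • π) y ∈ LinearMap.range T := by
    intro y
    have h1 := hJ ((π y : J) : P) (π y).2
    obtain ⟨a, b, hab⟩ := Ideal.mem_span_pair.mp h1
    refine ⟨![a, b], ?_⟩
    apply Subtype.ext
    rw [hT]
    simp
    exact hab
  obtain ⟨be, hbe⟩ := Module.projective_lifting_property T.rangeRestrict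
    ((e • π).codRestrict (LinearMap.range T) hrange) T.surjective_rangeRestrict
  have hbe' : ∀ y, T (be y) = e • π y := by
    intro y
    have h1 := LinearMap.congr_fun hbe y
    have h2 := congrArg Subtype.val h1
    exact h2
  let κ := LinearEquiv.ofInjective ι hιinj
  have hκ : ∀ z : LinearMap.range ι, ((κ.symm z) : P) • gam = z.1 := by
    intro z
    rw [← hι]
    have := κ.apply_symm_apply z
    have h2 := congrArg Subtype.val this
    exact h2
  have hκ2 : ∀ (z : LinearMap.range ι) (c : P), z.1 = c • gam → κ.symm z = c := by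
    intro z c hz
    apply hιinj
    rw [hι, hι, hκ, hz]
  -- bt
  have hbK : ∀ s : LinearMap.ker π, (be ∘ₗ (LinearMap.ker π).subtype) s ∈ LinearMap.range ι := by
    intro s
    apply hker
    show T (be s.1) = 0
    rw [hbe', LinearMap.mem_ker.mp s.2, smul_zero]
  let bt : LinearMap.ker π →ₗ[P] P :=
    κ.symm.toLinearMap ∘ₗ (be ∘ₗ (LinearMap.ker π).subtype).codRestrict (LinearMap.range ι) hbK
  have hbt : ∀ s : LinearMap.ker π, bt s • gam = be s.1 := fun s => hκ _
  have hbt2 : ∀ (s : LinearMap.ker π) (c : P), be s.1 = c • gam → bt s = c := fun s c h =>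
    hκ2 _ c h
  -- K1, k0
  have hK1 : ∀ y : Fin m → P, (e • (LinearMap.id : (Fin m → P) →ₗ[P] (Fin m → P)) - al ∘ₗ be) y
      ∈ LinearMap.ker π := by
    intro y
    rw [LinearMap.mem_ker]
    simp only [LinearMap.sub_apply, LinearMap.smul_apply, LinearMap.id_apply,
      LinearMap.comp_apply, map_sub, map_smul, hal', hbe', sub_self]
  let K1 : (Fin m → P) →ₗ[P] LinearMap.ker π :=
    (e • (LinearMap.id : (Fin m → P) →ₗ[P] (Fin m → P)) - al ∘ₗ be).codRestrict _ hK1
  let k0 : LinearMap.ker π := ⟨al gam, by rw [LinearMap.mem_ker, hal', hTgam]⟩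
  let β₀ : (Fin m → P) × P →ₗ[P] LinearMap.ker π :=
    K1.coprod (LinearMap.toSpanSingleton P _ k0)
  let α₀ : LinearMap.ker π →ₗ[P] (Fin m → P) × P := (LinearMap.ker π).subtype.prod bt
  have hβα : ∀ s, β₀ (α₀ s) = e • s := by
    intro s
    apply Subtype.ext
    show (e • s.1 - al (be s.1)) + bt s • al gam = e • s.1
    rw [← map_smul, hbt]
    abel
  have hfr : Module.finrank P ((Fin m → P) × P) = Module.finrank P (Fin (m + 1) → P) := by
    rw [Module.finrank_prod]
    simp
  let φ : ((Fin m → P) × P) ≃ₗ[P] (Fin (m + 1) → P) := LinearEquiv.ofFinrankEq _ _ hfr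
  refine ⟨φ.toLinearMap ∘ₗ α₀, β₀ ∘ₗ φ.symm.toLinearMap, ?_, ?_⟩
  · ext1 s
    show β₀ (φ.symm (φ (α₀ s))) = e • s
    rw [φ.symm_apply_apply, hβα]
  · have h1 : (LinearMap.toMatrix' ((φ.toLinearMap ∘ₗ α₀) ∘ₗ β₀ ∘ₗ φ.symm.toLinearMap)).trace
        = LinearMap.trace P _ ((φ.toLinearMap ∘ₗ α₀) ∘ₗ β₀ ∘ₗ φ.symm.toLinearMap) := by
      rw [LinearMap.trace_eq_matrix_trace P (Pi.basisFun P (Fin (m + 1)))]
      rw [LinearMap.toMatrix_eq_toMatrix']
    rw [h1]
    have h2 : LinearMap.trace P _ ((φ.toLinearMap ∘ₗ α₀) ∘ₗ β₀ ∘ₗ φ.symm.toLinearMap)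
        = LinearMap.trace P _ (α₀ ∘ₗ β₀) := by
      have h3 : (φ.toLinearMap ∘ₗ α₀) ∘ₗ β₀ ∘ₗ φ.symm.toLinearMap
          = φ.toLinearMap ∘ₗ ((α₀ ∘ₗ β₀) ∘ₗ φ.symm.toLinearMap) := rfl
      rw [h3, LinearMap.trace_comp_comm']
      congr 1
      ext1
      · ext x <;> simp
      · ext x <;> simp
    rw [h2]
    have h4 : α₀ ∘ₗ β₀ = LinearMap.inl P (Fin m → P) P ∘ₗ
          (e • (LinearMap.id : (Fin m → P) →ₗ[P] (Fin m → P)) - al ∘ₗ be) ∘ₗ LinearMap.fst P _ P
        + LinearMap.inl P (Fin m → P) P ∘ₗ (LinearMap.toSpanSingleton P _ (al gam)) ∘ₗ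
          LinearMap.snd P _ P
        + LinearMap.inr P (Fin m → P) P ∘ₗ (bt ∘ₗ K1) ∘ₗ LinearMap.fst P _ P
        + LinearMap.inr P (Fin m → P) P ∘ₗ (bt k0 • (LinearMap.id : P →ₗ[P] P)) ∘ₗ
          LinearMap.snd P _ P := by
      apply LinearMap.ext
      rintro ⟨y, c⟩
      have h5 : β₀ (y, c) = K1 y + c • k0 := by
        simp [β₀]
      show α₀ (β₀ (y, c)) = _
      rw [h5, map_add, map_smul]
      ext1
      · simp [α₀, K1, k0]
      · simp [α₀, mul_comm]
    rw [h4, trace_block]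
    -- be al = e + gam lam
    have hlamr : ∀ v : Fin 2 → P,
        (be ∘ₗ al - e • (LinearMap.id : (Fin 2 → P) →ₗ[P] (Fin 2 → P))) v ∈ LinearMap.range ι := by
      intro v
      apply hker
      simp only [LinearMap.sub_apply, LinearMap.smul_apply, LinearMap.id_apply,
        LinearMap.comp_apply, map_sub, map_smul, hal', hbe', sub_self]
    let lam : (Fin 2 → P) →ₗ[P] P := κ.symm.toLinearMap ∘ₗ
      (be ∘ₗ al - e • (LinearMap.id : (Fin 2 → P) →ₗ[P] (Fin 2 → P))).codRestrict
        (LinearMap.range ι) hlamr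
    have hlam : ∀ v, lam v • gam = be (al v) - e • v := fun v => hκ _
    have h6 : be ∘ₗ al = e • (LinearMap.id : (Fin 2 → P) →ₗ[P] (Fin 2 → P)) + ι ∘ₗ lam := by
      apply LinearMap.ext
      intro v
      show be (al v) = e • v + ι (lam v)
      rw [hι, hlam]
      abel
    have h7 : bt k0 = e + lam gam := by
      apply hbt2
      show be (al gam) = _
      rw [add_smul, hlam]
      abel
    have h8 : LinearMap.trace P _ (al ∘ₗ be) = e * 2 + lam gam := by
      rw [LinearMap.trace_comp_comm', h6, map_add, map_smul, LinearMap.trace_id,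
        LinearMap.trace_comp_comm']
      have h9 : lam ∘ₗ ι = (lam gam) • (LinearMap.id : P →ₗ[P] P) := by
        apply LinearMap.ext_ring
        show lam (ι 1) = lam gam • (1 : P)
        rw [hι, one_smul, smul_eq_mul, mul_one]
      rw [h9, map_smul, LinearMap.trace_id]
      simp
    rw [map_sub, map_smul, h8, LinearMap.trace_id, map_smul, LinearMap.trace_id, h7]
    simp
    ring

end Pool.Agent.Helper3.AC
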